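import Pool.Agent.U523.Bran.Upper

set_option autoImplicit false

open MeasureTheory ProbabilityTheory Finset Set

namespace Pool.Agent.U523.Bran

lemma int_of_cont {E : Type} [NormedAddCommGroup E] {a : ℝ} (h0 : 0 < a) (h1 : a < 1)
    (f : ℝ → E) (hf : Continuous f) : Integrable f (nu a) := by
  have := nu_prob h0 h1
  obtain ⟨C, hC⟩ := (isCompact_Icc (a := (0 : ℝ)) (b := 1)).exists_bound_of_continuousOn hf.continuousOn
  refine Integrable.of_bound hf.aestronglyMeasurable C ?_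
  filter_upwards [nu_ae (a := a)] with t ht
  exact hC t ⟨ht.1.le, ht.2.le⟩

lemma integral_cpow {a : ℝ} (h0 : 0 < a) (h1 : a < 1) (k : ℕ) :
    ∫ t, ((t : ℂ) ^ k) ∂(nu a) = (mo a k : ℂ) := by
  rw [← integral_pow h0 h1 k, ← integral_complex_ofReal]
  refine integral_congr_ae (Filter.Eventually.of_forall fun t => ?_)
  simp

lemma integral_H {a : ℝ} (h0 : 0 < a) (h1 : a < 1) (n : ℕ) (x : ℂ) :
    ∫ t, H n t x ∂(nu a) = S (a + 1) (n + 1) x := by
  have := nu_prob h0 h1
  induction n with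
  | zero =>
    have e : ∀ t : ℝ, H 0 t x = (1 + 2 * x) - (t : ℂ) ^ 1 * x := by
      intro t
      simp [H]
      ring
    simp_rw [e]
    rw [integral_sub (integrable_const _) ((int_of_cont h0 h1 _ (by fun_prop))), integral_mul_const,
      integral_cpow h0 h1]
    rw [S_succ, S_zero, b_one, mo_succ, mo_zero]
    simp
    ring
  | succ n ih =>
    have e : ∀ t : ℝ, H (n + 1) t x = H n t x + (-1) ^ n * x ^ (n + 2) *
        ((t : ℂ) ^ n - 2 * (t : ℂ) ^ (n + 1) + (t : ℂ) ^ (n + 2)) := by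
      intro t
      unfold H
      rw [Finset.sum_range_succ]
      ring
    simp_rw [e]
    have hc : Continuous fun t : ℝ => H n t x := by
      unfold H
      fun_prop
    rw [integral_add (int_of_cont h0 h1 _ hc) (int_of_cont h0 h1 _ (by fun_prop)), ih,
      integral_const_mul, integral_add (int_of_cont h0 h1 _ (by fun_prop)) (int_of_cont h0 h1 _ (by fun_prop)),
      integral_sub (int_of_cont h0 h1 _ (by fun_prop)) (int_of_cont h0 h1 _ (by fun_prop)),
      integral_const_mul, integral_cpow h0 h1, integral_cpow h0 h1, integral_cpow h0 h1,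
      S_succ (a + 1) (n + 1), b_a1_succ]
    push_cast
    ring

/-- the value at `1` -/
noncomputable def H1 (n : ℕ) (t : ℝ) : ℝ :=
  1 + (2 - t) + ∑ k ∈ Finset.range n, ((-1) ^ k * t ^ k * (1 - t) ^ 2)

lemma H_one (n : ℕ) (t : ℝ) : H n t 1 = (H1 n t : ℂ) := by
  unfold H H1
  push_cast
  simp

lemma S_one (α : ℝ) (n : ℕ) : S α n 1 = (S1 α n : ℂ) := by
  unfold S S1
  push_cast
  simp

lemma integral_H1 {a : ℝ} (h0 : 0 < a) (h1 : a < 1) (n : ℕ) :
    ∫ t, H1 n t ∂(nu a) = S1 (a + 1) (n + 1) := by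
  have h := integral_H h0 h1 n 1
  simp_rw [H_one] at h
  rw [integral_complex_ofReal, S_one] at h
  exact_mod_cast h

lemma norm_H_le {t : ℝ} (h0 : 0 < t) (h1 : t < 1) {x : ℂ} (hx : ‖x‖ = 1) (n : ℕ) :
    ‖H n t x‖ ≤ H1 n t := by
  have hk := key_ineq h0.le h1.le hx n ((-1) ^ n) (neg_one_pow_eq_or ℝ n)
  have hm := H_mul n t x
  have hm1 := H_mul n t 1
  rw [H_one] at hm1
  have e1 : (1 + x) ^ 2 - (1 - (t : ℂ)) ^ 2 * (-(t : ℂ)) ^ n * x ^ (n + 2) =
      (1 + x) ^ 2 - ((((-1) ^ n * ((1 - t) ^ 2 * t ^ n) : ℝ)) : ℂ) * x ^ (n + 2) := by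
    rw [neg_pow (t : ℂ)]
    push_cast
    ring
  rw [← e1, ← hm, norm_mul] at hk
  have e2 : (1 + t) * H1 n t = 4 - (-1) ^ n * ((1 - t) ^ 2 * t ^ n) := by
    have : ((1 + (t : ℂ) * 1) * (H1 n t : ℂ)) = (((1 + t) * H1 n t : ℝ) : ℂ) := by push_cast; ring
    rw [this] at hm1
    have h3 : (1 + (1 : ℂ)) ^ 2 - (1 - (t : ℂ)) ^ 2 * (-(t : ℂ)) ^ n * 1 ^ (n + 2) =
        ((4 - (-1) ^ n * ((1 - t) ^ 2 * t ^ n) : ℝ) : ℂ) := by
      rw [neg_pow (t : ℂ)]
      push_cast
      ring
    rw [h3] at hm1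
    exact_mod_cast hm1
  rw [← e2] at hk
  have hpos : 0 < ‖1 + (t : ℂ) * x‖ := by
    have : 1 - t ≤ ‖1 + (t : ℂ) * x‖ := by
      have h4 := norm_sub_norm_le (1 : ℂ) (-((t : ℂ) * x))
      rw [sub_neg_eq_add, norm_neg, norm_mul, hx, norm_one, Complex.norm_real, Real.norm_eq_abs,
        abs_of_pos h0, mul_one] at h4
      exact h4
    linarith
  have h5 : ‖1 + (t : ℂ) * x‖ * (1 + t) * ‖H n t x‖ ≤ ‖1 + (t : ℂ) * x‖ * (1 + t) * H1 n t := by
    nlinarith
  exact le_of_mul_le_mul_left h5 (mul_pos hpos (by linarith))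

lemma P_base {a : ℝ} (h0 : 0 < a) (h1 : a < 1) (n : ℕ) : P (a + 1) n := by
  cases n with
  | zero => exact P_zero _
  | succ n =>
    intro x hx
    rw [← integral_H h0 h1, ← integral_H1 h0 h1]
    refine (norm_integral_le_integral_norm _).trans ?_
    have hc : Continuous fun t : ℝ => H n t x := by
      unfold H
      fun_prop
    have hc1 : Continuous fun t : ℝ => H1 n t := by
      unfold H1
      fun_prop
    refine integral_mono_ae (int_of_cont h0 h1 _ hc.norm) (int_of_cont h0 h1 _ hc1) ?_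
    filter_upwards [nu_ae (a := a)] with t ht
    exact norm_H_le ht.1 ht.2 hx n

lemma P_nat (p : ℕ) (n : ℕ) : P (p : ℝ) n := by
  apply P_of_nonneg
  intro k _
  unfold b
  apply div_nonneg _ (by positivity)
  by_cases hk : k ≤ p
  · apply Finset.prod_nonneg
    intro j hj
    have : j < k := by simpa using hj
    have h2 : (j : ℝ) ≤ p := by
      have : j ≤ p := by omega
      exact_mod_cast this
    linarith
  · push Not at hk
    have : ∏ j ∈ Finset.range k, ((p : ℝ) - j) = 0 := by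
      apply Finset.prod_eq_zero (i := p) (by simpa using hk)
      simp
    rw [this]

/-- all `α ≥ 1` -/
theorem P_ge_one {α : ℝ} (h : 1 ≤ α) (n : ℕ) : P α n := by
  have key : ∀ p : ℕ, ∀ a : ℝ, 0 < a → a < 1 → ∀ n, P (a + 1 + p) n := by
    intro p
    induction p with
    | zero =>
      intro a h0 h1 n
      simpa using P_base h0 h1 n
    | succ p ih =>
      intro a h0 h1 n
      have := P_step (ih a h0 h1) n
      have e : a + 1 + ((p + 1 : ℕ) : ℝ) = a + 1 + p + 1 := by push_cast; ring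
      rw [e]
      exact this
  set q := ⌊α⌋₊ with hq
  have hq1 : 1 ≤ q := by
    rw [hq]
    exact Nat.le_floor (by simpa using h)
  have h2 : (q : ℝ) ≤ α := Nat.floor_le (by linarith)
  have h3 : α < q + 1 := Nat.lt_floor_add_one α
  rcases h2.eq_or_lt with h4 | h4
  · rw [← h4]
    exact P_nat q n
  · have := key (q - 1) (α - q) (by linarith) (by linarith) n
    have e : α - q + 1 + ((q - 1 : ℕ) : ℝ) = α := by
      rw [Nat.cast_sub hq1]
      push_cast
      ring
    rwa [e] at this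

end Pool.Agent.U523.Bran
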