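import Pool.Agent.U523.Bran.Base

set_option autoImplicit false

open MeasureTheory ProbabilityTheory Finset Set Filter Topology

namespace Pool.Agent.U523.Bran

lemma choose_eq (α : ℝ) (k : ℕ) : Ring.choose α k = b α k := by
  have h := Ring.descPochhammer_eq_factorial_smul_choose α k
  have h2 : (descPochhammer ℤ k).smeval α = ∏ j ∈ Finset.range k, (α - (j : ℝ)) := by
    clear h
    induction k with
    | zero => simp
    | succ k ih =>
      rw [descPochhammer_succ_right, Polynomial.smeval_mul, ih, Finset.prod_range_succ]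
      simp [Polynomial.smeval_natCast]
  rw [h2, nsmul_eq_mul] at h
  unfold b
  rw [h]
  have : (k.factorial : ℝ) ≠ 0 := by positivity
  field_simp

lemma hasSum_binom (a : ℝ) {z : ℂ} (hz : ‖z‖ < 1) :
    HasSum (fun k : ℕ => (b a k : ℂ) * z ^ k) ((1 + z) ^ (a : ℂ)) := by
  have h := (Complex.one_add_cpow_hasFPowerSeriesOnBall_zero (a := (a : ℂ))).hasSum
    (y := z) (by
      rw [← ENNReal.ofReal_one, Metric.eball_ofReal]
      simpa using hz)
  rw [zero_add] at h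
  have e : (fun k : ℕ => (b a k : ℂ) * z ^ k) = fun n => (binomialSeries ℂ (a:ℂ)) n fun _ => z := by
    funext k
    rw [binomialSeries_apply, ← Complex.ofReal_choose, choose_eq]
    simp [List.ofFn_const]
  rw [e]
  exact h

/-- the tail of the binomial series -/
lemma tail_formula {a : ℝ} (h0 : 0 < a) (h1 : a < 1) {z : ℂ} (hz : ‖z‖ < 1) (n : ℕ) :
    (1 + z) ^ (a : ℂ) - S a n z =
      (-1) ^ n * z ^ (n + 1) * ∫ t, ((t : ℂ) ^ n * (1 - t)) * (1 + t * z)⁻¹ ∂(nu a) := by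
  have hprob := nu_prob h0 h1
  have hA : HasSum (fun j : ℕ => (b a (j + (n + 1)) : ℂ) * z ^ (j + (n + 1)))
      ((1 + z) ^ (a : ℂ) - S a n z) := by
    have := (hasSum_nat_add_iff' (f := fun k : ℕ => (b a k : ℂ) * z ^ k) (n + 1)).2 (hasSum_binom a hz)
    exact this
  set F : ℕ → ℝ → ℂ := fun j t => ((t : ℂ) ^ n * (1 - t)) * (-((t : ℂ) * z)) ^ j with hF
  have hFc : ∀ j, Continuous (F j) := by
    intro j
    rw [hF]
    fun_prop
  have hFi : ∀ j, Integrable (F j) (nu a) := fun j => int_of_cont h0 h1 _ (hFc j)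
  have hFn : ∀ j, ∀ t : ℝ, 0 < t ∧ t < 1 → ‖F j t‖ ≤ ‖z‖ ^ j := by
    intro j t ht
    rw [hF]
    simp only [norm_mul, norm_pow, norm_neg, Complex.norm_real, Real.norm_eq_abs, abs_of_pos ht.1]
    have e1 : ‖(1 : ℂ) - t‖ = 1 - t := by
      rw [show (1 : ℂ) - t = ((1 - t : ℝ) : ℂ) by push_cast; ring, Complex.norm_real,
        Real.norm_eq_abs, abs_of_pos (by linarith [ht.2])]
    rw [e1, mul_pow]
    have h3 : t ^ n ≤ 1 := pow_le_one₀ ht.1.le ht.2.le
    have h4 : t ^ j ≤ 1 := pow_le_one₀ ht.1.le ht.2.le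
    have h5 : 0 ≤ t ^ n := pow_nonneg ht.1.le _
    have h6 : 0 ≤ t ^ j := pow_nonneg ht.1.le _
    have h7 : 0 ≤ ‖z‖ ^ j := by positivity
    have h8 : t ^ n * (1 - t) ≤ 1 * 1 := mul_le_mul h3 (by linarith [ht.1]) (by linarith [ht.2]) zero_le_one
    have h9 : t ^ j * ‖z‖ ^ j ≤ 1 * ‖z‖ ^ j := mul_le_mul_of_nonneg_right h4 h7
    have h10 : 0 ≤ t ^ n * (1 - t) := mul_nonneg h5 (by linarith [ht.2])
    calc t ^ n * (1 - t) * (t ^ j * ‖z‖ ^ j) ≤ (1 * 1) * (1 * ‖z‖ ^ j) :=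
          mul_le_mul h8 h9 (mul_nonneg h6 h7) (by norm_num)
      _ = ‖z‖ ^ j := by ring
  have hsum : Summable fun j => ∫ t, ‖F j t‖ ∂(nu a) := by
    refine Summable.of_nonneg_of_le (fun j => integral_nonneg fun t => norm_nonneg _) (fun j => ?_)
      (summable_geometric_of_lt_one (norm_nonneg z) hz)
    calc ∫ t, ‖F j t‖ ∂(nu a) ≤ ∫ t, ‖z‖ ^ j ∂(nu a) := by
          refine integral_mono_ae (hFi j).norm (integrable_const _) ?_
          filter_upwards [nu_ae (a := a)] with t ht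
          exact hFn j t ht
      _ = ‖z‖ ^ j := by simp
  have hB := hasSum_integral_of_summable_integral_norm hFi hsum
  have e2 : ∀ j, ∫ t, F j t ∂(nu a) = (-z) ^ j * ((mo a (n + j) - mo a (n + j + 1) : ℝ) : ℂ) := by
    intro j
    have e3 : ∀ t : ℝ, F j t = (-z) ^ j * ((t : ℂ) ^ (n + j) - (t : ℂ) ^ (n + j + 1)) := by
      intro t
      rw [hF]
      simp only
      rw [show -((t : ℂ) * z) = (-z) * t by ring, mul_pow]
      ring
    simp_rw [e3]
    rw [integral_const_mul, integral_sub (int_of_cont h0 h1 _ (by fun_prop)) (int_of_cont h0 h1 _ (by fun_prop)),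
      integral_cpow h0 h1, integral_cpow h0 h1]
    push_cast
    ring
  have e4 : ∫ t, ∑' j, F j t ∂(nu a) = ∫ t, ((t : ℂ) ^ n * (1 - t)) * (1 + t * z)⁻¹ ∂(nu a) := by
    refine integral_congr_ae ?_
    filter_upwards [nu_ae (a := a)] with t ht
    rw [hF]
    simp only
    rw [tsum_mul_left, tsum_geometric_of_norm_lt_one, sub_neg_eq_add]
    rw [norm_neg, norm_mul, Complex.norm_real, Real.norm_eq_abs, abs_of_pos ht.1]
    have := norm_nonneg z
    nlinarith [ht.1, ht.2]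
  rw [e4] at hB
  have hC := hB.mul_left ((-1) ^ n * z ^ (n + 1))
  have e5 : (fun j : ℕ => (-1) ^ n * z ^ (n + 1) * ∫ t, F j t ∂(nu a)) =
      fun j : ℕ => (b a (j + (n + 1)) : ℂ) * z ^ (j + (n + 1)) := by
    funext j
    rw [e2, show j + (n + 1) = (n + j) + 1 by ring, b_a_succ, neg_pow z, pow_add (-1 : ℝ)]
    push_cast
    ring
  rw [e5] at hC
  exact hA.unique hC

/-- the number `Q` -/
noncomputable def Q (a : ℝ) (n : ℕ) : ℝ := ∫ t, t ^ n * (1 - t) / (1 + t) ∂(nu a)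

lemma int_div {a : ℝ} (h0 : 0 < a) (h1 : a < 1) (n : ℕ) {r : ℝ} (hr : 0 ≤ r) :
    Integrable (fun t : ℝ => t ^ n * (1 - t) / (1 + r * t)) (nu a) := by
  have := nu_prob h0 h1
  refine Integrable.of_bound ?_ 1 ?_
  · exact (by fun_prop : Measurable fun t : ℝ => t ^ n * (1 - t) / (1 + r * t)).aestronglyMeasurable
  · filter_upwards [nu_ae (a := a)] with t ht
    have h3 : t ^ n ≤ 1 := pow_le_one₀ ht.1.le ht.2.le
    have h5 : 0 ≤ t ^ n := pow_nonneg ht.1.le _
    have h6 : 0 ≤ r * t := mul_nonneg hr ht.1.le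
    have h7 : 0 ≤ t ^ n * (1 - t) := mul_nonneg h5 (by linarith [ht.2])
    have h8 : t ^ n * (1 - t) ≤ 1 * 1 := mul_le_mul h3 (by linarith [ht.1]) (by linarith [ht.2]) zero_le_one
    rw [Real.norm_eq_abs, abs_of_nonneg (div_nonneg h7 (by linarith)), div_le_one (by linarith)]
    linarith

lemma Q_nonneg {a : ℝ} (n : ℕ) : 0 ≤ Q a n := by
  unfold Q
  refine integral_nonneg_of_ae ?_
  filter_upwards [nu_ae (a := a)] with t ht
  have h5 : 0 ≤ t ^ n := pow_nonneg ht.1.le _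
  exact div_nonneg (mul_nonneg h5 (by linarith [ht.2])) (by linarith [ht.1])

lemma mo_antitone {a : ℝ} (h0 : 0 < a) (h1 : a < 1) (n : ℕ) : mo a (n + 1) ≤ 1 - a := by
  induction n with
  | zero => simp [mo]
  | succ n ih =>
    rw [mo_succ]
    have h2 : (((n + 1 : ℕ) : ℝ) + 1 - a) / (((n + 1 : ℕ) : ℝ) + 1) ≤ 1 := by
      have : (0 : ℝ) < ((n + 1 : ℕ) : ℝ) + 1 := by positivity
      rw [div_le_one this]
      linarith
    have h3 := mo_nonneg h1 (n + 1)
    calc mo a (n + 1) * _ ≤ mo a (n + 1) * 1 := mul_le_mul_of_nonneg_left h2 h3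
      _ ≤ 1 - a := by linarith

lemma Q_le {a : ℝ} (h0 : 0 < a) (h1 : a < 1) (n : ℕ) : Q a (n + 1) ≤ a / (2 * (n + 1)) := by
  have hprob := nu_prob h0 h1
  have hstep : Q a (n + 1) ≤ (mo a (n + 1) - mo a (n + 2)) - (mo a (n + 2) - mo a (n + 3)) / 2 := by
    have e : (mo a (n + 1) - mo a (n + 2)) - (mo a (n + 2) - mo a (n + 3)) / 2 =
        ∫ t, (t ^ (n + 1) - t ^ (n + 2)) - (t ^ (n + 2) - t ^ (n + 3)) / 2 ∂(nu a) := by
      rw [integral_sub (int_of_cont h0 h1 _ (by fun_prop)) (int_of_cont h0 h1 _ (by fun_prop)),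
        integral_div, integral_sub (int_of_cont h0 h1 _ (by fun_prop)) (int_of_cont h0 h1 _ (by fun_prop)),
        integral_sub (int_of_cont h0 h1 _ (by fun_prop)) (int_of_cont h0 h1 _ (by fun_prop)),
        integral_pow h0 h1, integral_pow h0 h1, integral_pow h0 h1]
    rw [e]
    unfold Q
    have hi := int_div h0 h1 (n + 1) zero_le_one
    simp only [one_mul] at hi
    refine integral_mono_ae hi (int_of_cont h0 h1 _ (by fun_prop)) ?_
    filter_upwards [nu_ae (a := a)] with t ht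
    have h5 : 0 ≤ t ^ (n + 1) := pow_nonneg ht.1.le _
    have e2 : (t ^ (n + 1) - t ^ (n + 2)) - (t ^ (n + 2) - t ^ (n + 3)) / 2 =
        t ^ (n + 1) * ((1 - t) * (1 - t / 2)) := by ring
    rw [e2, mul_div_assoc]
    refine mul_le_mul_of_nonneg_left ?_ h5
    rw [div_le_iff₀ (by linarith [ht.1])]
    have h6 : 0 ≤ (1 - t) * t * (1 - t) := mul_nonneg (mul_nonneg (by linarith [ht.2]) ht.1.le) (by linarith [ht.2])
    nlinarith
  refine hstep.trans ?_
  have hn : (0 : ℝ) ≤ n := by positivity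
  have hm0 := mo_nonneg h1 (n + 1)
  have hm1 := mo_antitone h0 h1 n
  set M := mo a (n + 1) with hM
  have e2 : mo a (n + 2) = M * (((n : ℝ) + 2 - a) / (n + 2)) := by
    rw [show n + 2 = n + 1 + 1 from rfl, mo_succ, ← hM]
    push_cast
    ring
  have e3 : mo a (n + 3) = M * (((n : ℝ) + 2 - a) / (n + 2)) * (((n : ℝ) + 3 - a) / (n + 3)) := by
    rw [show n + 3 = n + 2 + 1 from rfl, mo_succ, e2]
    push_cast
    ring
  rw [e2, e3]
  have e4 : (M - M * (((n : ℝ) + 2 - a) / (n + 2))) - (M * (((n : ℝ) + 2 - a) / (n + 2)) -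
      M * (((n : ℝ) + 2 - a) / (n + 2)) * (((n : ℝ) + 3 - a) / (n + 3))) / 2 =
      a * (M * ((n : ℝ) + 4 + a)) / (2 * ((n + 2) * (n + 3))) := by
    field_simp
    ring
  rw [e4, div_le_div_iff₀ (by positivity) (by positivity)]
  have h2 : M * ((n : ℝ) + 4 + a) ≤ (1 - a) * ((n : ℝ) + 4 + a) :=
    mul_le_mul_of_nonneg_right hm1 (by linarith)
  have h3 : (1 - a) * ((n : ℝ) + 4 + a) ≤ n + 4 := by nlinarith
  have h4 : a * (M * ((n : ℝ) + 4 + a)) ≤ a * (n + 4) :=
    mul_le_mul_of_nonneg_left (h2.trans h3) h0.le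
  have h5 : a * (M * ((n : ℝ) + 4 + a)) * (2 * (n + 1)) ≤ a * (n + 4) * (2 * (n + 1)) :=
    mul_le_mul_of_nonneg_right h4 (by positivity)
  have h6 : a * ((n : ℝ) + 4) * (2 * (n + 1)) ≤ a * (2 * ((n + 2) * (n + 3))) := by nlinarith
  linarith

/-- lower bound of the value at `1` -/
lemma S1_lower {a : ℝ} (h0 : 0 < a) (h1 : a < 1) {n : ℕ} (hn : Odd n) :
    2 ^ a + Q a n ≤ S1 a n := by
  have hprob := nu_prob h0 h1
  have key : ∀ r : ℝ, 0 < r → r < 1 →
      (1 + r) ^ a + r ^ (n + 1) * Q a n ≤ ∑ k ∈ Finset.range (n + 1), b a k * r ^ k := by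
    intro r hr0 hr1
    have hT := tail_formula h0 h1 (z := (r : ℂ)) (by
      rw [Complex.norm_real, Real.norm_eq_abs, abs_of_pos hr0]; exact hr1) n
    rw [hn.neg_one_pow] at hT
    have e1 : S a n (r : ℂ) = ((∑ k ∈ Finset.range (n + 1), b a k * r ^ k : ℝ) : ℂ) := by
      unfold S
      push_cast
      rfl
    have e2 : (1 + (r : ℂ)) ^ (a : ℂ) = (((1 + r) ^ a : ℝ) : ℂ) := by
      rw [Complex.ofReal_cpow (by linarith)]
      push_cast
      rfl
    have e3 : ∫ t : ℝ, ((t : ℂ) ^ n * (1 - (t : ℂ))) * (1 + (t : ℂ) * (r : ℂ))⁻¹ ∂(nu a) =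
        ((∫ t, t ^ n * (1 - t) / (1 + r * t) ∂(nu a) : ℝ) : ℂ) := by
      rw [← integral_complex_ofReal]
      refine integral_congr_ae (Filter.Eventually.of_forall fun t => ?_)
      simp only
      push_cast
      rw [div_eq_mul_inv, mul_comm (r : ℂ)]
    rw [e1, e2, e3] at hT
    have hT' : (1 + r) ^ a - ∑ k ∈ Finset.range (n + 1), b a k * r ^ k =
        -1 * r ^ (n + 1) * ∫ t, t ^ n * (1 - t) / (1 + r * t) ∂(nu a) := by
      exact_mod_cast hT
    have hQ : Q a n ≤ ∫ t, t ^ n * (1 - t) / (1 + r * t) ∂(nu a) := by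
      unfold Q
      have hi := int_div h0 h1 n zero_le_one
      simp only [one_mul] at hi
      refine integral_mono_ae hi (int_div h0 h1 n hr0.le) ?_
      filter_upwards [nu_ae (a := a)] with t ht
      have h5 : 0 ≤ t ^ n := pow_nonneg ht.1.le _
      refine div_le_div_of_nonneg_left (mul_nonneg h5 (by linarith [ht.2])) ?_ ?_
      · have := mul_pos hr0 ht.1
        linarith
      · have : r * t ≤ 1 * t := mul_le_mul_of_nonneg_right hr1.le ht.1.le
        linarith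
    have h3 : r ^ (n + 1) * Q a n ≤ r ^ (n + 1) * ∫ t, t ^ n * (1 - t) / (1 + r * t) ∂(nu a) :=
      mul_le_mul_of_nonneg_left hQ (by positivity)
    linarith
  have hlim1 : Tendsto (fun r : ℝ => (1 + r) ^ a + r ^ (n + 1) * Q a n) (𝓝[<] 1)
      (𝓝 ((1 + 1) ^ a + 1 ^ (n + 1) * Q a n)) := by
    apply Tendsto.mono_left _ nhdsWithin_le_nhds
    apply Continuous.tendsto
    exact ((continuous_const.add continuous_id).rpow_const fun _ => Or.inr h0.le).add (by fun_prop)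
  have hlim2 : Tendsto (fun r : ℝ => ∑ k ∈ Finset.range (n + 1), b a k * r ^ k) (𝓝[<] 1)
      (𝓝 (∑ k ∈ Finset.range (n + 1), b a k * 1 ^ k)) := by
    apply Tendsto.mono_left _ nhdsWithin_le_nhds
    apply Continuous.tendsto (x := (1 : ℝ)) (f := fun r : ℝ => ∑ k ∈ Finset.range (n + 1), b a k * r ^ k)
    fun_prop
  have hev : ∀ᶠ r : ℝ in 𝓝[<] 1, (1 + r) ^ a + r ^ (n + 1) * Q a n ≤
      ∑ k ∈ Finset.range (n + 1), b a k * r ^ k := by
    have : Ioo (0 : ℝ) 1 ∈ 𝓝[<] (1 : ℝ) := Ioo_mem_nhdsLT zero_lt_one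
    filter_upwards [this] with r hr
    exact key r hr.1 hr.2
  have h := le_of_tendsto_of_tendsto hlim1 hlim2 hev
  unfold S1
  simp only [one_pow, mul_one, one_mul] at h
  norm_num at h
  exact h

/-- upper bound away from `-1` -/
lemma S_upper {a : ℝ} (h0 : 0 < a) (h1 : a < 1) {n : ℕ} (hn : Odd n) {x : ℂ} (hx : ‖x‖ = 1)
    (hc : 0 < ‖1 + x‖ / 2) :
    ‖S a n x‖ ≤ ‖1 + x‖ ^ a + Q a n / (‖1 + x‖ / 2) := by
  have hprob := nu_prob h0 h1
  set c := ‖1 + x‖ / 2 with hcdef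
  have hx2 : x.re * x.re + x.im * x.im = 1 := by
    rw [← Complex.normSq_apply, Complex.normSq_eq_norm_sq, hx]; norm_num
  have hre : |x.re| ≤ 1 := by
    rw [← hx]; exact Complex.abs_re_le_norm x
  have hre1 := (abs_le.1 hre).1
  have hre2 := (abs_le.1 hre).2
  have hc2 : c ^ 2 = (1 + x.re) / 2 := by
    have : ‖1 + x‖ ^ 2 = 2 + 2 * x.re := by
      rw [← Complex.normSq_eq_norm_sq, Complex.normSq_apply]
      simp only [Complex.add_re, Complex.add_im, Complex.one_re, Complex.one_im, zero_add]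
      nlinarith
    rw [hcdef, div_pow, this]
    ring
  have hden : ∀ τ : ℝ, 0 ≤ τ → c * (1 + τ) ≤ ‖1 + (τ : ℂ) * x‖ := by
    intro τ hτ
    apply le_of_sq_le_sq' _ (norm_nonneg _)
    have e : ‖1 + (τ : ℂ) * x‖ ^ 2 = 1 + 2 * τ * x.re + τ ^ 2 := by
      rw [← Complex.normSq_eq_norm_sq, Complex.normSq_apply]
      simp only [Complex.add_re, Complex.add_im, Complex.one_re, Complex.one_im, Complex.mul_re,
        Complex.mul_im, Complex.ofReal_re, Complex.ofReal_im, zero_mul, sub_zero, add_zero, zero_add]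
      linear_combination τ ^ 2 * hx2
    rw [e, mul_pow, hc2]
    have : 0 ≤ (1 - τ) ^ 2 * (1 - x.re) := mul_nonneg (sq_nonneg _) (by linarith)
    nlinarith
  have key : ∀ r : ℝ, 0 < r → r < 1 →
      ‖S a n ((r : ℂ) * x)‖ ≤ ‖1 + (r : ℂ) * x‖ ^ a + (Q a n + (1 - r)) / c := by
    intro r hr0 hr1
    have hz : ‖(r : ℂ) * x‖ = r := by
      rw [norm_mul, hx, mul_one, Complex.norm_real, Real.norm_eq_abs, abs_of_pos hr0]
    have hT := tail_formula h0 h1 (z := (r : ℂ) * x) (by rw [hz]; exact hr1) n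
    rw [hn.neg_one_pow] at hT
    have e1 : S a n ((r : ℂ) * x) = (1 + (r : ℂ) * x) ^ (a : ℂ) +
        ((r : ℂ) * x) ^ (n + 1) * ∫ t, ((t : ℂ) ^ n * (1 - t)) * (1 + t * ((r : ℂ) * x))⁻¹ ∂(nu a) := by
      linear_combination -hT
    have hne : 1 + (r : ℂ) * x ≠ 0 := by
      intro h
      have := hden r hr0.le
      rw [h, norm_zero] at this
      have : 0 < c * (1 + r) := mul_pos hc (by linarith)
      linarith
    have e2 : ‖(1 + (r : ℂ) * x) ^ (a : ℂ)‖ = ‖1 + (r : ℂ) * x‖ ^ a := by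
      rw [Complex.norm_cpow_of_ne_zero hne]
      simp
    have e3 : ‖∫ t, ((t : ℂ) ^ n * (1 - t)) * (1 + t * ((r : ℂ) * x))⁻¹ ∂(nu a)‖ ≤
        (Q a n + (1 - r)) / c := by
      have hi := int_div h0 h1 n zero_le_one
      simp only [one_mul] at hi
      have e4 : (Q a n + (1 - r)) / c = ∫ t, (t ^ n * (1 - t) / (1 + t) + (1 - r)) / c ∂(nu a) := by
        rw [integral_div, integral_add hi (integrable_const _)]
        simp [Q]
      rw [e4]
      refine norm_integral_le_of_norm_le ((hi.add (integrable_const _)).div_const _) ?_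
      filter_upwards [nu_ae (a := a)] with t ht
      have h3 : t ^ n ≤ 1 := pow_le_one₀ ht.1.le ht.2.le
      have h5 : 0 ≤ t ^ n := pow_nonneg ht.1.le _
      have h7 : 0 ≤ t ^ n * (1 - t) := mul_nonneg h5 (by linarith [ht.2])
      have h8 : t ^ n * (1 - t) ≤ 1 * 1 :=
        mul_le_mul h3 (by linarith [ht.1]) (by linarith [ht.2]) zero_le_one
      have e5 : ‖((t : ℂ) ^ n * (1 - t)) * (1 + t * ((r : ℂ) * x))⁻¹‖ =
          t ^ n * (1 - t) / ‖1 + ((t * r : ℝ) : ℂ) * x‖ := by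
        rw [norm_mul, norm_mul, norm_pow, norm_inv, Complex.norm_real, Real.norm_eq_abs, abs_of_pos ht.1,
          show (1 : ℂ) - t = ((1 - t : ℝ) : ℂ) by push_cast; ring, Complex.norm_real,
          Real.norm_eq_abs, abs_of_pos (by linarith [ht.2] : (0 : ℝ) < 1 - t), div_eq_mul_inv]
        congr 3
        push_cast
        ring
      rw [e5]
      have htr : 0 < t * r := mul_pos ht.1 hr0
      have h9 := hden (t * r) htr.le
      have h10 : 0 < c * (1 + t * r) := mul_pos hc (by linarith)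
      have h11 : t ^ n * (1 - t) / ‖1 + ((t * r : ℝ) : ℂ) * x‖ ≤ t ^ n * (1 - t) / (c * (1 + t * r)) :=
        div_le_div_of_nonneg_left h7 h10 h9
      refine h11.trans ?_
      rw [mul_comm c, ← div_div]
      refine div_le_div_of_nonneg_right ?_ hc.le
      have h12 : t ^ n * (1 - t) / (1 + t * r) - t ^ n * (1 - t) / (1 + t) =
          (t ^ n * (1 - t)) * (t * (1 - r)) / ((1 + t * r) * (1 + t)) := by
        have p1 : 1 + t * r ≠ 0 := by linarith
        have p2 : 1 + t ≠ 0 := by linarith [ht.1]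
        field_simp
        ring
      have h13 : (t ^ n * (1 - t)) * (t * (1 - r)) / ((1 + t * r) * (1 + t)) ≤ 1 - r := by
        rw [div_le_iff₀ (mul_pos (by linarith) (by linarith [ht.1]))]
        have q1 : t * (1 - r) ≤ 1 * (1 - r) := mul_le_mul_of_nonneg_right ht.2.le (by linarith)
        have q2 : (t ^ n * (1 - t)) * (t * (1 - r)) ≤ 1 * (1 - r) := by
          refine mul_le_mul (by linarith) (by linarith) (mul_nonneg ht.1.le (by linarith)) zero_le_one
        have q3 : 1 ≤ (1 + t * r) * (1 + t) := by nlinarith [ht.1]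
        nlinarith
      linarith
    rw [e1]
    refine (norm_add_le _ _).trans ?_
    rw [e2, norm_mul, norm_pow, hz]
    have h4 : r ^ (n + 1) ≤ 1 := pow_le_one₀ hr0.le hr1.le
    have h5 : r ^ (n + 1) * ‖∫ t, ((t : ℂ) ^ n * (1 - t)) * (1 + t * ((r : ℂ) * x))⁻¹ ∂(nu a)‖ ≤
        1 * ‖∫ t, ((t : ℂ) ^ n * (1 - t)) * (1 + t * ((r : ℂ) * x))⁻¹ ∂(nu a)‖ :=
      mul_le_mul_of_nonneg_right h4 (norm_nonneg _)
    linarith
  have hS : Continuous fun r : ℝ => S a n ((r : ℂ) * x) := by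
    unfold S
    fun_prop
  have hlim1 : Tendsto (fun r : ℝ => ‖S a n ((r : ℂ) * x)‖) (𝓝[<] 1) (𝓝 ‖S a n (((1 : ℝ) : ℂ) * x)‖) :=
    (hS.norm.tendsto 1).mono_left nhdsWithin_le_nhds
  have hlim2 : Tendsto (fun r : ℝ => ‖1 + (r : ℂ) * x‖ ^ a + (Q a n + (1 - r)) / c) (𝓝[<] 1)
      (𝓝 (‖1 + ((1 : ℝ) : ℂ) * x‖ ^ a + (Q a n + (1 - 1)) / c)) := by
    apply Tendsto.mono_left _ nhdsWithin_le_nhds
    apply Continuous.tendsto (x := (1 : ℝ)) (f := fun r : ℝ => ‖1 + (r : ℂ) * x‖ ^ a + (Q a n + (1 - r)) / c)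
    refine Continuous.add ?_ (by fun_prop)
    exact Continuous.rpow_const (by fun_prop) fun _ => Or.inr h0.le
  have hev : ∀ᶠ r : ℝ in 𝓝[<] 1, ‖S a n ((r : ℂ) * x)‖ ≤ ‖1 + (r : ℂ) * x‖ ^ a + (Q a n + (1 - r)) / c := by
    have : Ioo (0 : ℝ) 1 ∈ 𝓝[<] (1 : ℝ) := Ioo_mem_nhdsLT zero_lt_one
    filter_upwards [this] with r hr
    exact key r hr.1 hr.2
  have h := le_of_tendsto_of_tendsto hlim1 hlim2 hev
  simpa using h
where
  le_of_sq_le_sq' {p q : ℝ} (h : p ^ 2 ≤ q ^ 2) (hq : 0 ≤ q) : p ≤ q := by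
    exact le_of_not_gt fun hcon => absurd h (not_le.2 (pow_lt_pow_left₀ hcon hq two_ne_zero))

/-- upper bound near `-1` -/
lemma S_small {a : ℝ} (h0 : 0 < a) (h1 : a < 1) {n : ℕ} {x : ℂ} (hx : ‖x‖ = 1)
    (hc : (n : ℝ) * ‖1 + x‖ ≤ 1) : ‖S a n x‖ ≤ 1 := by
  -- `S = 1 - ∑ c_k + ∑ c_k (1 - y^k)`
  set y : ℂ := -x with hy
  have hyn : ‖y‖ = 1 := by rw [hy, norm_neg, hx]
  set cc : ℕ → ℝ := fun k => mo a k - mo a (k + 1) with hcc
  have hcc0 : ∀ k, 0 ≤ cc k := by
    intro k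
    rw [hcc]
    simp only
    rw [mo_succ]
    have h2 : ((k : ℝ) + 1 - a) / ((k : ℝ) + 1) ≤ 1 := by
      have : (0 : ℝ) < (k : ℝ) + 1 := by positivity
      rw [div_le_one this]
      linarith
    have h3 := mo_nonneg h1 k
    have := mul_le_mul_of_nonneg_left h2 h3
    linarith
  have htel : ∀ m, ∑ k ∈ Finset.range m, cc k = 1 - mo a m := by
    intro m
    rw [hcc, Finset.sum_range_sub', mo_zero]
  have e : S a n x = ((1 - ∑ k ∈ Finset.range n, cc k : ℝ) : ℂ) +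
      ∑ k ∈ Finset.range n, (cc k : ℂ) * (1 - y ^ (k + 1)) := by
    unfold S
    rw [Finset.sum_range_succ', b_zero, pow_zero, mul_one]
    push_cast
    simp_rw [mul_sub, mul_one]
    rw [Finset.sum_sub_distrib]
    have : ∑ k ∈ Finset.range n, (b a (k + 1) : ℂ) * x ^ (k + 1) =
        -∑ k ∈ Finset.range n, (cc k : ℂ) * y ^ (k + 1) := by
      rw [← Finset.sum_neg_distrib]
      refine Finset.sum_congr rfl fun k _ => ?_
      rw [b_a_succ, hy, neg_pow x, hcc]
      push_cast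
      have h4 : ((-1 : ℂ) ^ k) * (-1) ^ k = 1 := by
        rw [← mul_pow]; norm_num
      rw [pow_succ (-1 : ℂ)]
      ring_nf
    rw [this]
    ring
  have hb : ∀ k ∈ Finset.range n, ‖(cc k : ℂ) * (1 - y ^ (k + 1))‖ ≤ cc k := by
    intro k hk
    have hk' : k + 1 ≤ n := by
      have := Finset.mem_range.1 hk
      omega
    rw [norm_mul, Complex.norm_real, Real.norm_eq_abs, abs_of_nonneg (hcc0 k)]
    have h3 := norm_pow_sub_one hyn (k + 1)
    rw [norm_sub_rev] at h3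
    have h4 : ‖y - 1‖ = ‖1 + x‖ := by
      rw [hy, show -x - 1 = -(1 + x) by ring, norm_neg]
    rw [h4] at h3
    have h5 : ((k + 1 : ℕ) : ℝ) * ‖1 + x‖ ≤ n * ‖1 + x‖ :=
      mul_le_mul_of_nonneg_right (by exact_mod_cast hk') (norm_nonneg _)
    calc cc k * ‖1 - y ^ (k + 1)‖ ≤ cc k * 1 :=
          mul_le_mul_of_nonneg_left (h3.trans (h5.trans hc)) (hcc0 k)
      _ = cc k := mul_one _
  rw [e]
  refine (norm_add_le _ _).trans ?_
  have h6 : ‖((1 - ∑ k ∈ Finset.range n, cc k : ℝ) : ℂ)‖ = 1 - ∑ k ∈ Finset.range n, cc k := by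
    rw [Complex.norm_real, Real.norm_eq_abs, abs_of_nonneg]
    rw [htel]
    have := mo_nonneg h1 n
    linarith
  rw [h6]
  have h7 : ‖∑ k ∈ Finset.range n, (cc k : ℂ) * (1 - y ^ (k + 1))‖ ≤ ∑ k ∈ Finset.range n, cc k :=
    (norm_sum_le _ _).trans (Finset.sum_le_sum hb)
  linarith

/-- the case `0 < a < 1`, odd `n` -/
theorem P_lt_one {a : ℝ} (h0 : 0 < a) (h1 : a < 1) {n : ℕ} (hn : Odd n) : P a n := by
  intro x hx
  have hlow := S1_lower h0 h1 hn
  have hQ0 := Q_nonneg (a := a) n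
  have h2a : 1 ≤ (2 : ℝ) ^ a := Real.one_le_rpow (by norm_num) h0.le
  have hn1 : 1 ≤ n := hn.pos
  rcases le_total ((n : ℝ) * ‖1 + x‖) 1 with hc | hc
  · have := S_small h0 h1 hx hc
    linarith
  · have hnpos : (0 : ℝ) < n := by exact_mod_cast hn1
    have hpos : 0 < ‖1 + x‖ := by
      rcases (norm_nonneg (1 + x)).eq_or_lt with h | h
      · rw [← h, mul_zero] at hc
        linarith
      · exact h
    have hup := S_upper h0 h1 hn hx (by linarith)
    refine hup.trans (le_trans ?_ hlow)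
    set c := ‖1 + x‖ / 2 with hcdef
    have hc0 : 0 < c := by rw [hcdef]; linarith
    have hc1 : c ≤ 1 := by
      have := norm_one_add_le hx
      rw [hcdef]; linarith
    have e1 : ‖1 + x‖ = 2 * c := by rw [hcdef]; ring
    rw [e1, Real.mul_rpow (by norm_num) hc0.le]
    have h3 : c ^ a ≤ 1 - a * (1 - c) := by
      have := _root_.rpow_one_add_le_one_add_mul_self (s := c - 1) (by linarith) h0.le h1.le
      rw [show 1 + (c - 1) = c by ring] at this
      linarith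
    have hQ : Q a n ≤ a / (2 * n) := by
      obtain ⟨k, hk⟩ := Nat.exists_eq_succ_of_ne_zero (by omega : n ≠ 0)
      subst hk
      have := Q_le h0 h1 k
      simpa using this
    have h4 : (2 : ℝ) ^ a * c ^ a ≤ 2 ^ a - a * (1 - c) := by
      have h5 : (2 : ℝ) ^ a * c ^ a ≤ 2 ^ a * (1 - a * (1 - c)) :=
        mul_le_mul_of_nonneg_left h3 (by linarith)
      have h6 : a * (1 - c) ≤ 2 ^ a * (a * (1 - c)) := by
        have : 0 ≤ a * (1 - c) := mul_nonneg h0.le (by linarith)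
        nlinarith
      linarith
    have hnc : 1 ≤ 2 * n * c := by
      rw [e1] at hc
      linarith
    have h7 : Q a n / c ≤ Q a n + a * (1 - c) := by
      rw [div_le_iff₀ hc0]
      have h8 : Q a n * (1 - c) ≤ a * c * (1 - c) := by
        refine mul_le_mul_of_nonneg_right (hQ.trans ?_) (by linarith)
        rw [div_le_iff₀ (by positivity)]
        nlinarith
      nlinarith
    linarith

end Pool.Agent.U523.Bran
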