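import Mathlib

set_option autoImplicit false

open MeasureTheory ProbabilityTheory Finset Set

namespace Pool.Agent.U523.Bran

/-- the generalized binomial coefficient -/
noncomputable def b (α : ℝ) (k : ℕ) : ℝ := (∏ j ∈ Finset.range k, (α - (j : ℝ))) / (k.factorial : ℝ)

lemma b_zero (α : ℝ) : b α 0 = 1 := by simp [b]

lemma b_succ (α : ℝ) (k : ℕ) : b α (k + 1) = b α k * ((α - k) / (k + 1)) := by
  unfold b
  rw [Finset.prod_range_succ, Nat.factorial_succ]
  have h : (k.factorial : ℝ) ≠ 0 := by positivity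
  have h2 : (k : ℝ) + 1 ≠ 0 := by positivity
  push_cast
  field_simp

lemma b_one (α : ℝ) : b α 1 = α := by
  have := b_succ α 0
  simp [b_zero] at this
  exact this

/-- Pascal's rule -/
lemma b_add_one (α : ℝ) (k : ℕ) : b (α + 1) (k + 1) = b α (k + 1) + b α k := by
  induction k with
  | zero => simp [b_one, b_zero]
  | succ k ih =>
    rw [b_succ (α + 1) (k + 1), ih, b_succ α (k + 1), b_succ α k]
    have h1 : (k : ℝ) + 1 ≠ 0 := by positivity
    have h2 : (k : ℝ) + 1 + 1 ≠ 0 := by positivity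
    push_cast
    field_simp
    ring

/-- moments -/
noncomputable def mo (a : ℝ) (k : ℕ) : ℝ := ∏ j ∈ Finset.range k, (((j : ℝ) + 1 - a) / (j + 1))

lemma mo_zero (a : ℝ) : mo a 0 = 1 := by simp [mo]

lemma mo_succ (a : ℝ) (k : ℕ) : mo a (k + 1) = mo a k * (((k : ℝ) + 1 - a) / (k + 1)) := by
  unfold mo
  rw [Finset.prod_range_succ]

lemma mo_nonneg {a : ℝ} (h1 : a < 1) (k : ℕ) : 0 ≤ mo a k := by
  unfold mo
  apply Finset.prod_nonneg
  intro j _
  have : (0 : ℝ) ≤ j := by positivity
  apply div_nonneg <;> linarith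

lemma b_sub_one (a : ℝ) (k : ℕ) : b (a - 1) k = (-1) ^ k * mo a k := by
  induction k with
  | zero => simp [b_zero, mo_zero]
  | succ k ih =>
    rw [b_succ, ih, mo_succ, pow_succ]
    have h1 : (k : ℝ) + 1 ≠ 0 := by positivity
    field_simp
    ring

lemma b_a_succ (a : ℝ) (k : ℕ) : b a (k + 1) = (-1) ^ k * (mo a k - mo a (k + 1)) := by
  have h := b_add_one (a - 1) k
  rw [sub_add_cancel, b_sub_one, b_sub_one] at h
  rw [h, pow_succ]
  ring

lemma b_a1_succ (a : ℝ) (k : ℕ) :
    b (a + 1) (k + 2) = (-1) ^ k * (mo a k - 2 * mo a (k + 1) + mo a (k + 2)) := by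
  have h := b_add_one a (k + 1)
  rw [show k + 2 = k + 1 + 1 from rfl, h, b_a_succ, b_a_succ, pow_succ]
  ring

/-- the Beta measure -/
noncomputable def nu (a : ℝ) : Measure ℝ := betaMeasure (1 - a) a

lemma nu_prob {a : ℝ} (h0 : 0 < a) (h1 : a < 1) : IsProbabilityMeasure (nu a) :=
  isProbabilityMeasureBeta (by linarith) h0

lemma nu_ae {a : ℝ} : ∀ᵐ t ∂(nu a), 0 < t ∧ t < 1 := by
  unfold nu betaMeasure
  rw [ae_withDensity_iff (by unfold betaPDF; fun_prop)]
  refine Filter.Eventually.of_forall fun t ht => ?_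
  by_contra hcon
  apply ht
  rw [betaPDF_eq, if_neg hcon, ENNReal.ofReal_zero]

lemma integral_betaPDFReal {p q : ℝ} (hp : 0 < p) (hq : 0 < q) : ∫ x, betaPDFReal p q x = 1 := by
  have h := lintegral_betaPDF_eq_one hp hq
  have hnn : 0 ≤ᵐ[volume] betaPDFReal p q := by
    refine Filter.Eventually.of_forall fun x => ?_
    show 0 ≤ betaPDFReal p q x
    by_cases hx : 0 < x ∧ x < 1
    · exact (betaPDFReal_pos hx.1 hx.2 hp hq).le
    · simp [betaPDFReal, hx]
  rw [integral_eq_lintegral_of_nonneg_ae hnn (stronglyMeasurable_betaPDFReal p q).aestronglyMeasurable]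
  have : ∫⁻ x, ENNReal.ofReal (betaPDFReal p q x) = 1 := h
  rw [this]
  simp

lemma integral_nu {a : ℝ} (h0 : 0 < a) (h1 : a < 1) (f : ℝ → ℝ) :
    ∫ t, f t ∂(nu a) = ∫ t, betaPDFReal (1 - a) a t * f t := by
  unfold nu betaMeasure
  rw [integral_withDensity_eq_integral_toReal_smul (by unfold betaPDF; fun_prop)
    (Filter.Eventually.of_forall fun x => by unfold betaPDF; exact ENNReal.ofReal_lt_top)]
  refine integral_congr_ae (Filter.Eventually.of_forall fun t => ?_)
  have hnn : 0 ≤ betaPDFReal (1 - a) a t := by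
    by_cases hx : 0 < t ∧ t < 1
    · exact (betaPDFReal_pos hx.1 hx.2 (by linarith) h0).le
    · simp [betaPDFReal, hx]
  simp only [betaPDF, smul_eq_mul]
  rw [ENNReal.toReal_ofReal hnn]

lemma beta_ratio {a : ℝ} (h0 : 0 < a) (h1 : a < 1) (k : ℕ) :
    beta (1 - a + k) a = mo a k * beta (1 - a) a := by
  induction k with
  | zero => simp [mo_zero]
  | succ k ih =>
    have hk : (0 : ℝ) ≤ k := by positivity
    have e1 : beta (1 - a + (k + 1 : ℕ)) a = ((k + 1 - a) / (k + 1)) * beta (1 - a + k) a := by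
      unfold beta
      have g1 : Real.Gamma (1 - a + (k + 1 : ℕ)) = (1 - a + k) * Real.Gamma (1 - a + k) := by
        rw [← Real.Gamma_add_one (by linarith)]
        congr 1
        push_cast
        ring
      have g2 : Real.Gamma (1 - a + (k + 1 : ℕ) + a) = ((k : ℝ) + 1) * Real.Gamma (1 - a + k + a) := by
        rw [show 1 - a + (k + 1 : ℕ) + a = (k + 1) + 1 by push_cast; ring,
          Real.Gamma_add_one (by positivity)]
        congr 2
        ring
      rw [g1, g2]
      have hg : Real.Gamma (1 - a + k + a) ≠ 0 := by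
        rw [show 1 - a + k + a = k + 1 by ring]
        exact (Real.Gamma_pos_of_pos (by positivity)).ne'
      have hk1 : (k : ℝ) + 1 ≠ 0 := by positivity
      field_simp
      ring
    rw [e1, ih, mo_succ]
    ring

lemma integral_pow {a : ℝ} (h0 : 0 < a) (h1 : a < 1) (k : ℕ) : ∫ t, t ^ k ∂(nu a) = mo a k := by
  rw [integral_nu h0 h1]
  have hb : beta (1 - a) a ≠ 0 := (beta_pos (by linarith) h0).ne'
  have hk : (0 : ℝ) ≤ k := by positivity
  have hbk : beta (1 - a + k) a ≠ 0 := (beta_pos (by linarith) h0).ne'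
  have e : (fun t : ℝ => betaPDFReal (1 - a) a t * t ^ k) =
      fun t => mo a k * betaPDFReal (1 - a + k) a t := by
    funext t
    unfold betaPDFReal
    by_cases ht : 0 < t ∧ t < 1
    · rw [if_pos ht, if_pos ht]
      have e1 : t ^ (1 - a + k - 1) = t ^ (1 - a - 1) * t ^ k := by
        rw [← Real.rpow_natCast, ← Real.rpow_add ht.1]
        congr 1
        ring
      rw [e1, beta_ratio h0 h1]
      have hm : mo a k ≠ 0 := by
        intro h
        rw [beta_ratio h0 h1, h, zero_mul] at hbk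
        exact hbk rfl
      field_simp
    · rw [if_neg ht, if_neg ht]
      simp
  rw [e, integral_const_mul, integral_betaPDFReal (by linarith) h0, mul_one]

end Pool.Agent.U523.Bran
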