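import Pool.Agent.U523.Bran.Basic

set_option autoImplicit false

open MeasureTheory ProbabilityTheory Finset Set

namespace Pool.Agent.U523.Bran

/-- the partial sums -/
noncomputable def S (α : ℝ) (n : ℕ) (x : ℂ) : ℂ := ∑ k ∈ Finset.range (n + 1), (b α k : ℂ) * x ^ k

/-- the real partial sum at `1` -/
noncomputable def S1 (α : ℝ) (n : ℕ) : ℝ := ∑ k ∈ Finset.range (n + 1), b α k

/-- The inequality -/
def P (α : ℝ) (n : ℕ) : Prop := ∀ x : ℂ, ‖x‖ = 1 → ‖S α n x‖ ≤ S1 α n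

lemma S_succ (α : ℝ) (n : ℕ) (x : ℂ) : S α (n + 1) x = S α n x + b α (n + 1) * x ^ (n + 1) := by
  unfold S
  rw [Finset.sum_range_succ _ (n + 1)]

lemma S1_succ (α : ℝ) (n : ℕ) : S1 α (n + 1) = S1 α n + b α (n + 1) := by
  unfold S1
  rw [Finset.sum_range_succ _ (n + 1)]

lemma S_zero (α : ℝ) (x : ℂ) : S α 0 x = 1 := by simp [S, b_zero]

lemma S1_zero (α : ℝ) : S1 α 0 = 1 := by simp [S1, b_zero]

lemma P_of_nonneg {α : ℝ} {n : ℕ} (h : ∀ k ≤ n, 0 ≤ b α k) : P α n := by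
  intro x hx
  unfold S S1
  refine (norm_sum_le _ _).trans (Finset.sum_le_sum fun k hk => ?_)
  rw [norm_mul, norm_pow, hx, one_pow, mul_one, Complex.norm_real, Real.norm_eq_abs,
    abs_of_nonneg (h k (by simpa [Nat.lt_succ_iff] using hk))]

lemma P_zero (α : ℝ) : P α 0 := by
  intro x _
  rw [S_zero, S1_zero, norm_one]

lemma P_one {α : ℝ} (h : 0 ≤ α) : P α 1 := by
  apply P_of_nonneg
  intro k hk
  interval_cases k
  · rw [b_zero]; norm_num
  · rw [b_one]; exact h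

/-- `S (α+1) (n+1) x = (1 + x) S α n x + b α (n+1) x^(n+1)` -/
lemma S_add_one (α : ℝ) (n : ℕ) (x : ℂ) :
    S (α + 1) (n + 1) x = (1 + x) * S α n x + b α (n + 1) * x ^ (n + 1) := by
  induction n with
  | zero =>
    rw [S_succ, S_zero, S_zero, b_one, b_one]
    push_cast
    ring
  | succ n ih =>
    rw [S_succ, ih, S_succ α n, b_add_one α (n + 1)]
    push_cast
    ring

lemma S1_add_one (α : ℝ) (n : ℕ) : S1 (α + 1) (n + 1) = 2 * S1 α n + b α (n + 1) := by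
  induction n with
  | zero =>
    rw [S1_succ, S1_zero, S1_zero, b_one, b_one]
    ring
  | succ n ih =>
    rw [S1_succ, ih, S1_succ α n, b_add_one α (n + 1)]
    ring

lemma norm_one_add_le {x : ℂ} (hx : ‖x‖ = 1) : ‖1 + x‖ ≤ 2 := by
  refine (norm_add_le _ _).trans ?_
  rw [hx, norm_one]; norm_num

lemma P_step {α : ℝ} (h : ∀ n, P α n) : ∀ n, P (α + 1) n := by
  intro n
  cases n with
  | zero => exact P_zero _
  | succ n =>
    intro x hx
    rcases le_total 0 (b α (n + 1)) with hb | hb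
    · rw [S_add_one, S1_add_one]
      refine (norm_add_le _ _).trans ?_
      rw [norm_mul, norm_mul, norm_pow, hx, one_pow, mul_one, Complex.norm_real, Real.norm_eq_abs,
        abs_of_nonneg hb]
      have h1 := h n x hx
      have h2 := norm_one_add_le hx
      have h3 : ‖1 + x‖ * ‖S α n x‖ ≤ 2 * S1 α n := mul_le_mul h2 h1 (norm_nonneg _) (by norm_num)
      linarith
    · have e1 : S (α + 1) (n + 1) x = (1 + x) * S α (n + 1) x - b α (n + 1) * x ^ (n + 2) := by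
        rw [S_add_one, S_succ]
        ring
      have e2 : S1 (α + 1) (n + 1) = 2 * S1 α (n + 1) - b α (n + 1) := by
        rw [S1_add_one, S1_succ]
        ring
      rw [e1, e2]
      refine (norm_sub_le _ _).trans ?_
      rw [norm_mul, norm_mul, norm_pow, hx, one_pow, mul_one, Complex.norm_real, Real.norm_eq_abs,
        abs_of_nonpos hb]
      have h1 := h (n + 1) x hx
      have h2 := norm_one_add_le hx
      have h3 : ‖1 + x‖ * ‖S α (n + 1) x‖ ≤ 2 * S1 α (n + 1) :=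
        mul_le_mul h2 h1 (norm_nonneg _) (by norm_num)
      linarith

/-- the polynomials `H` -/
noncomputable def H (n : ℕ) (t : ℝ) (x : ℂ) : ℂ :=
  1 + (2 - t) * x + ∑ k ∈ Finset.range n, ((-1) ^ k * t ^ k * (1 - t) ^ 2 : ℂ) * x ^ (k + 2)

/-- closed form of `H` -/
lemma H_mul (n : ℕ) (t : ℝ) (x : ℂ) :
    (1 + t * x) * H n t x = (1 + x) ^ 2 - (1 - t) ^ 2 * (-(t : ℂ)) ^ n * x ^ (n + 2) := by
  induction n with
  | zero =>
    simp [H]
    ring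
  | succ n ih =>
    have e : H (n + 1) t x = H n t x + ((-1) ^ n * t ^ n * (1 - t) ^ 2 : ℂ) * x ^ (n + 2) := by
      unfold H
      rw [Finset.sum_range_succ]
      ring
    rw [e, mul_add, ih]
    have e2 : (-(t : ℂ)) ^ n = (-1) ^ n * t ^ n := by rw [neg_pow]
    rw [pow_succ (-(t : ℂ)) n, e2]
    ring

lemma amgm {t : ℝ} (h0 : 0 ≤ t) (h1 : t ≤ 1) (n : ℕ) :
    ((n : ℝ) + 1) ^ 2 * ((1 - t) ^ 2 * t ^ n) ≤ 1 := by
  set u := Real.sqrt t with hu
  have hu0 : 0 ≤ u := Real.sqrt_nonneg t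
  have hu2 : u ^ 2 = t := Real.sq_sqrt h0
  set A := ∑ i ∈ Finset.range (n + 1), t ^ i with hA
  have hA2 : A = ∑ i ∈ Finset.range (n + 1), t ^ (n - i) := by
    rw [hA, ← Finset.sum_range_reflect]
    refine Finset.sum_congr rfl fun i hi => ?_
    congr 1
  have h2A : ((n : ℝ) + 1) * u ^ n ≤ A := by
    have h3 : 2 * A = ∑ i ∈ Finset.range (n + 1), (t ^ i + t ^ (n - i)) := by
      rw [Finset.sum_add_distrib, ← hA2, ← hA]; ring
    have h4 : ∑ i ∈ Finset.range (n + 1), 2 * u ^ n ≤ 2 * A := by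
      rw [h3]
      refine Finset.sum_le_sum fun i hi => ?_
      have hi' : i ≤ n := by simpa [Nat.lt_succ_iff] using hi
      have e1 : u ^ n = u ^ i * u ^ (n - i) := by
        rw [← pow_add]; congr 1; omega
      have e2 : t ^ i = (u ^ i) ^ 2 := by rw [← hu2, ← pow_mul, ← pow_mul, mul_comm]
      have e3 : t ^ (n - i) = (u ^ (n - i)) ^ 2 := by rw [← hu2, ← pow_mul, ← pow_mul, mul_comm]
      rw [e1, e2, e3]
      nlinarith [sq_nonneg (u ^ i - u ^ (n - i))]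
    rw [Finset.sum_const, Finset.card_range, nsmul_eq_mul] at h4
    push_cast at h4
    linarith
  have h5 : A * (1 - t) ≤ 1 := by
    have := geom_sum_mul_neg t (n + 1)
    rw [← hA] at this
    rw [this]
    have : 0 ≤ t ^ (n + 1) := by positivity
    linarith
  have h6 : ((n : ℝ) + 1) * u ^ n * (1 - t) ≤ 1 :=
    (mul_le_mul_of_nonneg_right h2A (by linarith)).trans h5
  have h7 : 0 ≤ ((n : ℝ) + 1) * u ^ n * (1 - t) :=
    mul_nonneg (by positivity) (by linarith)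
  have e : ((n : ℝ) + 1) ^ 2 * ((1 - t) ^ 2 * t ^ n) = (((n : ℝ) + 1) * u ^ n * (1 - t)) ^ 2 := by
    rw [← hu2]; ring
  rw [e]
  nlinarith

lemma norm_sq_one_sub {z : ℂ} (hz : ‖z‖ = 1) : ‖z - 1‖ ^ 2 = 2 * (1 - z.re) := by
  have h1 : z.re * z.re + z.im * z.im = 1 := by
    rw [← Complex.normSq_apply, Complex.normSq_eq_norm_sq, hz]; norm_num
  rw [← Complex.normSq_eq_norm_sq, Complex.normSq_apply]
  simp only [Complex.sub_re, Complex.sub_im, Complex.one_re, Complex.one_im]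
  nlinarith

lemma norm_pow_sub_one {x : ℂ} (hx : ‖x‖ = 1) (n : ℕ) : ‖x ^ n - 1‖ ≤ n * ‖x - 1‖ := by
  have h := geom_sum_mul x n
  rw [← h, norm_mul]
  apply mul_le_mul_of_nonneg_right _ (norm_nonneg _)
  refine (norm_sum_le _ _).trans ?_
  simp [hx]

lemma rho_le {x : ℂ} (hx : ‖x‖ = 1) (n : ℕ) : 1 - (x ^ n).re ≤ (n : ℝ) ^ 2 * (1 - x.re) := by
  have h1 := norm_sq_one_sub (z := x ^ n) (by rw [norm_pow, hx, one_pow])
  have h2 := norm_sq_one_sub hx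
  have h3 := norm_pow_sub_one hx n
  have h4 : ‖x ^ n - 1‖ ^ 2 ≤ (n * ‖x - 1‖) ^ 2 := pow_le_pow_left₀ (norm_nonneg _) h3 2
  rw [mul_pow, h1, h2] at h4
  linarith

/-- the basic inequality: `‖(1+x)² - e ε x^{n+2}‖ (1+t) ≤ (4 - e ε) ‖1 + t x‖` -/
lemma key_ineq {t : ℝ} (h0 : 0 ≤ t) (h1 : t ≤ 1) {x : ℂ} (hx : ‖x‖ = 1) (n : ℕ) (e : ℝ)
    (he : e = 1 ∨ e = -1) :
    ‖(1 + x) ^ 2 - ((e * ((1 - t) ^ 2 * t ^ n) : ℝ) : ℂ) * x ^ (n + 2)‖ * (1 + t) ≤
      (4 - e * ((1 - t) ^ 2 * t ^ n)) * ‖1 + t * x‖ := by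
  set ε := (1 - t) ^ 2 * t ^ n with hε
  have hε0 : 0 ≤ ε := by positivity
  have hε1 : ε ≤ (1 - t) ^ 2 := by
    rw [hε]
    have : t ^ n ≤ 1 := pow_le_one₀ h0 h1
    nlinarith [sq_nonneg (1 - t)]
  have hε2 : (1 - t) ^ 2 ≤ 1 := by nlinarith
  have hx2 : x.re * x.re + x.im * x.im = 1 := by
    rw [← Complex.normSq_apply, Complex.normSq_eq_norm_sq, hx]; norm_num
  set ρ0 := x.re with hρ0
  have hre : |ρ0| ≤ 1 := by
    rw [hρ0, ← hx]; exact Complex.abs_re_le_norm x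
  have hre1 := (abs_le.1 hre).1
  have hre2 := (abs_le.1 hre).2
  -- (1+x)^2 = κ x
  have hk : (1 + x) ^ 2 = ((2 + 2 * ρ0 : ℝ) : ℂ) * x := by
    apply Complex.ext
    · simp [pow_two, Complex.mul_re, Complex.add_re, Complex.add_im]
      nlinarith
    · simp [pow_two, Complex.mul_im, Complex.add_re, Complex.add_im]
      ring
  set κ : ℝ := 2 + 2 * ρ0 with hκ
  have hn1 : ‖(1 + x) ^ 2 - ((e * ε : ℝ) : ℂ) * x ^ (n + 2)‖ = ‖(κ : ℂ) - ((e * ε : ℝ) : ℂ) * x ^ (n + 1)‖ := by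
    rw [hk]
    have : (κ : ℂ) * x - ((e * ε : ℝ) : ℂ) * x ^ (n + 2) = x * ((κ : ℂ) - ((e * ε : ℝ) : ℂ) * x ^ (n + 1)) := by
      ring
    rw [this, norm_mul, hx, one_mul]
  set y : ℂ := x ^ (n + 1) with hy
  have hyn : ‖y‖ = 1 := by rw [hy, norm_pow, hx, one_pow]
  have hy2 : y.re * y.re + y.im * y.im = 1 := by
    rw [← Complex.normSq_apply, Complex.normSq_eq_norm_sq, hyn]; norm_num
  have hn2 : ‖(κ : ℂ) - ((e * ε : ℝ) : ℂ) * y‖ ^ 2 = κ ^ 2 - 2 * κ * (e * ε) * y.re + (e * ε) ^ 2 := by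
    rw [← Complex.normSq_eq_norm_sq, Complex.normSq_apply]
    simp only [Complex.sub_re, Complex.sub_im, Complex.ofReal_re, Complex.ofReal_im, Complex.mul_re,
      Complex.mul_im, zero_mul, sub_zero, add_zero, zero_sub]
    linear_combination (e * ε) ^ 2 * hy2
  have hn3 : ‖1 + (t : ℂ) * x‖ ^ 2 = (1 + t) ^ 2 - 2 * t * (1 - ρ0) := by
    rw [← Complex.normSq_eq_norm_sq, Complex.normSq_apply]
    simp only [Complex.add_re, Complex.add_im, Complex.one_re, Complex.one_im, Complex.mul_re,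
      Complex.mul_im, Complex.ofReal_re, Complex.ofReal_im, zero_mul, sub_zero, add_zero, zero_add]
    linear_combination t ^ 2 * hx2
  have hρ := rho_le hx (n + 1)
  rw [← hy, ← hρ0] at hρ
  have ham := amgm h0 h1 n
  rw [← hε] at ham
  push_cast at hρ
  have hρ' : ε * (1 - y.re) ≤ 1 - ρ0 := by
    have h2 : ε * (1 - y.re) ≤ ε * (((n : ℝ) + 1) ^ 2 * (1 - ρ0)) :=
      mul_le_mul_of_nonneg_left hρ hε0
    have h3 : ε * (((n : ℝ) + 1) ^ 2 * (1 - ρ0)) = (((n : ℝ) + 1) ^ 2 * ε) * (1 - ρ0) := by ring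
    rw [h3] at h2
    have h4 : (((n : ℝ) + 1) ^ 2 * ε) * (1 - ρ0) ≤ 1 * (1 - ρ0) :=
      mul_le_mul_of_nonneg_right ham (by linarith)
    linarith
  have hyre : |y.re| ≤ 1 := by rw [← hyn]; exact Complex.abs_re_le_norm y
  have hyre1 := (abs_le.1 hyre).1
  have hyre2 := (abs_le.1 hyre).2
  have hσ0 : 0 ≤ 1 - ρ0 := by linarith
  have hfin : (κ ^ 2 - 2 * κ * (e * ε) * y.re + (e * ε) ^ 2) * (1 + t) ^ 2 ≤
      (4 - e * ε) ^ 2 * ((1 + t) ^ 2 - 2 * t * (1 - ρ0)) := by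
    have hκ' : κ = 4 - 2 * (1 - ρ0) := by rw [hκ]; ring
    have hκ0 : 0 ≤ κ := by rw [hκ]; linarith
    set σ := 1 - ρ0 with hσ
    have hσ2 : σ ≤ 2 := by rw [hσ]; linarith
    have hte : t * ε ^ 2 ≤ (1 - t) ^ 2 := by
      have h2 : ε ^ 2 ≤ ε := by nlinarith
      have h3 : t * ε ^ 2 ≤ 1 * ε ^ 2 := mul_le_mul_of_nonneg_right h1 (sq_nonneg _)
      linarith
    rcases he with he | he
    · subst he
      have h2 : 2 * κ * ε * (1 - y.re) ≤ 2 * κ * σ := by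
        have : 2 * κ * ε * (1 - y.re) = 2 * κ * (ε * (1 - y.re)) := by ring
        rw [this]
        exact mul_le_mul_of_nonneg_left hρ' (by linarith)
      have h3 : κ ^ 2 - 2 * κ * (1 * ε) * y.re + (1 * ε) ^ 2 ≤ (κ - ε) ^ 2 + 2 * κ * σ := by
        have e5 : κ ^ 2 - 2 * κ * (1 * ε) * y.re + (1 * ε) ^ 2 = (κ - ε) ^ 2 + 2 * κ * ε * (1 - y.re) := by
          ring
        rw [e5]
        linarith
      have h4 : ((κ - ε) ^ 2 + 2 * κ * σ) * (1 + t) ^ 2 ≤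
          (4 - 1 * ε) ^ 2 * ((1 + t) ^ 2 - 2 * t * σ) := by
        have e3 : (4 - 1 * ε) ^ 2 * ((1 + t) ^ 2 - 2 * t * σ) - ((κ - ε) ^ 2 + 2 * κ * σ) * (1 + t) ^ 2
            = σ * (8 * (1 - t) ^ 2 - 4 * ε * (1 - t) ^ 2 - 2 * (t * ε ^ 2)) := by
          rw [hκ']; ring
        have h5 : 0 ≤ 8 * (1 - t) ^ 2 - 4 * ε * (1 - t) ^ 2 - 2 * (t * ε ^ 2) := by
          have h6 : ε * (1 - t) ^ 2 ≤ 1 * (1 - t) ^ 2 :=
            mul_le_mul_of_nonneg_right (by linarith) (sq_nonneg _)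
          have h8 := sq_nonneg (1 - t)
          linarith
        have := mul_nonneg hσ0 h5
        linarith
      exact (mul_le_mul_of_nonneg_right h3 (sq_nonneg _)).trans h4
    · subst he
      have h3 : κ ^ 2 - 2 * κ * (-1 * ε) * y.re + (-1 * ε) ^ 2 ≤ (κ + ε) ^ 2 := by
        have h9 : 0 ≤ κ * ε * (1 - y.re) := mul_nonneg (mul_nonneg hκ0 hε0) (by linarith)
        have e5 : κ ^ 2 - 2 * κ * (-1 * ε) * y.re + (-1 * ε) ^ 2 =
            (κ + ε) ^ 2 - 2 * (κ * ε * (1 - y.re)) := by ring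
        rw [e5]
        linarith
      have h4 : (κ + ε) ^ 2 * (1 + t) ^ 2 ≤ (4 - -1 * ε) ^ 2 * ((1 + t) ^ 2 - 2 * t * σ) := by
        have e3 : (4 - -1 * ε) ^ 2 * ((1 + t) ^ 2 - 2 * t * σ) - (κ + ε) ^ 2 * (1 + t) ^ 2
            = σ * (4 * (2 - σ) * (1 + t) ^ 2 + 8 * (1 - t) ^ 2 + 4 * ε * (1 - t) ^ 2 - 2 * (t * ε ^ 2)) := by
          rw [hκ']; ring
        have h5 : 0 ≤ 4 * (2 - σ) * (1 + t) ^ 2 + 8 * (1 - t) ^ 2 + 4 * ε * (1 - t) ^ 2 - 2 * (t * ε ^ 2) := by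
          have h6 : 0 ≤ ε * (1 - t) ^ 2 := mul_nonneg hε0 (sq_nonneg _)
          have h7 : 0 ≤ (2 - σ) * (1 + t) ^ 2 := mul_nonneg (by linarith) (sq_nonneg _)
          have h8 := sq_nonneg (1 - t)
          linarith
        have := mul_nonneg hσ0 h5
        linarith
      exact (mul_le_mul_of_nonneg_right h3 (sq_nonneg _)).trans h4
  rw [hn1]
  have hpos : 0 ≤ 4 - e * ε := by
    rcases he with he | he <;> subst he <;> linarith
  have hsq : (‖(κ : ℂ) - ((e * ε : ℝ) : ℂ) * y‖ * (1 + t)) ^ 2 ≤ ((4 - e * ε) * ‖1 + (t : ℂ) * x‖) ^ 2 := by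
    rw [mul_pow, mul_pow, hn2, hn3]
    exact hfin
  exact le_of_sq_le_sq hsq (mul_nonneg hpos (norm_nonneg _))
where
  le_of_sq_le_sq {p q : ℝ} (h : p ^ 2 ≤ q ^ 2) (hq : 0 ≤ q) : p ≤ q := by
    exact le_of_not_gt fun hcon => absurd h (not_le.2 (pow_lt_pow_left₀ hcon hq two_ne_zero))

end Pool.Agent.U523.Bran
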